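import Pool.Agent.R575.WC.Main

/-!
MP_88baa4_lc: choice on Baire space is not Weihrauch reducible to the compositional product of
choice on the natural numbers with the perfect kernel problem, not even topologically.
-/

namespace Pool.Agent.Results.MP_88baa4_lc.ChoiceNotBelowKernel

open Pool.Agent.R575.WC

theorem result : ¬ WRedProd CBaire CNat PK ∧ ¬ TRedProd CBaire CNat PK :=
  ⟨not_WRedProd, not_TRedProd⟩

end Pool.Agent.Results.MP_88baa4_lc.ChoiceNotBelowKernel
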